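import Pool.Agent.W616.HTotal
import Pool.Agent.W616.KAb

/-!
# Two rational homology spheres not separated by all quantum `G` and `PG` invariants

`M` is `3`-surgery on `K # K` and `N` is `3`-surgery on `K # rK`, where `K` is a ten crossing knot (the
closure of the three-strand braid `wordK`) and `rK` is `K` with the reversed orientation.
All definitions are in `Pool/Agent/W616/QDefs.lean`.
-/

set_option autoImplicit false

namespace Pool.Agent.Results.MP_76ff03_gt.TorusMutation

open Pool.Agent.W616

/-- The closures of the five-strand braids `sumKK` and `sumKrK` are knots; the 3-manifolds `M`, `N`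
obtained from them by surgery with framing `3` are rational homology 3-spheres (finite first homology)
with non-isomorphic fundamental groups, so they are not homeomorphic; for every simple Lie algebra and
every highest weight the framed coloured invariants of the two knots agree, and hence all quantum `G`
invariants and all quantum `PG` invariants of `M` and `N` agree, for every `G` and every `r`. -/
theorem result :
    (IsKnot sumKK ∧ IsKnot sumKrK) ∧
    (Finite (Abelianization (pi1 sumKK 2 3)) ∧ Finite (Abelianization (pi1 sumKrK 2 3))) ∧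
    IsEmpty (pi1 sumKK 2 3 ≃* pi1 sumKrK 2 3) ∧
    (∀ (Δ : CartanDatum) (lam : Fin Δ.n → ℕ) (f : ℤ),
      knotInv Δ lam sumKK f = knotInv Δ lam sumKrK f) ∧
    (∀ (Δ : CartanDatum) (r : ℕ), tauG Δ r sumKK 3 = tauG Δ r sumKrK 3) ∧
    ∀ (Δ : CartanDatum) (r : ℕ), tauPG Δ r sumKK 3 = tauPG Δ r sumKrK 3 :=
  ⟨⟨isKnot_KK, isKnot_KrK⟩, ⟨finite_KK, finite_KrK⟩, pi1_not_iso,
    fun Δ lam f => (knotInv_mutation Δ lam wordK wordK f).symm,
    fun Δ r => (surgerySum_mutation Δ _ r wordK wordK 3).symm,
    fun Δ r => (surgerySum_mutation Δ _ r wordK wordK 3).symm⟩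

end Pool.Agent.Results.MP_76ff03_gt.TorusMutation
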